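import Mathlib

/-!
# Functions on the real line with finite support, convolution and the supremum norm
-/

set_option autoImplicit false

namespace Pool.Agent.V7H1.ED

open Finset

/-- the basic inequality -/
def Basic (b : ℝ) (μ : ℝ → ℝ) : Prop :=
  ∀ (S : Finset ℝ) (G H : ℝ → ℝ),
    ∑ s ∈ S, ∑ t ∈ S, G s * H t * μ (s - t) ≤ b / 2 * ∑ s ∈ S, (G s ^ 2 + H s ^ 2)

lemma quad {b X Y : ℝ} (hb : 0 ≤ b)
    (h : ∀ l : ℝ, 0 < l → l * X ≤ b / 2 * (X + l ^ 2 * Y)) : X ≤ b ^ 2 * Y := by
  rcases hb.eq_or_lt with h0 | h0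
  · have := h 1 one_pos
    rw [← h0] at this ⊢
    nlinarith
  · have := h b h0
    have h1 : X ≤ (X + b ^ 2 * Y) / 2 := by
      have h2 : b * X ≤ b * ((X + b ^ 2 * Y) / 2) := by linarith
      exact le_of_mul_le_mul_left h2 h0
    linarith

/-- Bessel's inequality -/
theorem bessel {b : ℝ} {μ : ℝ → ℝ} (hb : 0 ≤ b) (h : Basic b μ) (S : Finset ℝ) :
    ∑ s ∈ S, μ s ^ 2 ≤ b ^ 2 := by
  classical
  have h1 : ∑ s ∈ S, μ s ^ 2 ≤ ∑ s ∈ insert 0 S, μ s ^ 2 :=
    Finset.sum_le_sum_of_subset_of_nonneg (Finset.subset_insert _ _) fun _ _ _ => sq_nonneg _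
  refine h1.trans ?_
  have h2 := quad (X := ∑ s ∈ insert 0 S, μ s ^ 2) (Y := 1) hb (fun l _ => ?_)
  · linarith
  · have h3 := h (insert 0 S) μ (fun t => if t = 0 then l else 0)
    have h4 : ∀ s, ∑ t ∈ insert 0 S, μ s * (if t = 0 then l else 0) * μ (s - t) = l * μ s ^ 2 := by
      intro s
      rw [Finset.sum_eq_single_of_mem 0 (Finset.mem_insert_self _ _)]
      · simp
        ring
      · intro t _ ht
        simp [ht]
    have h5 : ∑ s ∈ insert 0 S, (μ s ^ 2 + (if s = 0 then l else 0) ^ 2) =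
        ∑ s ∈ insert 0 S, μ s ^ 2 + l ^ 2 := by
      rw [Finset.sum_add_distrib]
      congr 1
      rw [Finset.sum_eq_single_of_mem 0 (Finset.mem_insert_self _ _)]
      · simp
      · intro t _ ht
        simp [ht]
    rw [h5, Finset.sum_congr rfl fun s _ => h4 s, ← Finset.mul_sum] at h3
    linarith

lemma finite_of_int {b : ℝ} {m : ℝ → ℤ} (hb : 0 ≤ b) (h : Basic b fun t => (m t : ℝ)) :
    (Function.support m).Finite := by
  by_contra hinf
  obtain ⟨S, hS, hcard⟩ := Set.Infinite.exists_subset_card_eq hinf (⌊b ^ 2⌋₊ + 1)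
  have h1 := bessel hb h S
  have h2 : (S.card : ℝ) ≤ ∑ s ∈ S, (m s : ℝ) ^ 2 := by
    rw [Finset.card_eq_sum_ones]
    push_cast
    refine Finset.sum_le_sum fun s hs => ?_
    have h3 : m s ≠ 0 := hS hs
    have h4 : 1 ≤ |m s| := Int.one_le_abs h3
    have h5 : (1 : ℝ) ≤ |(m s : ℝ)| := by exact_mod_cast h4
    rw [← sq_abs]
    nlinarith
  rw [hcard] at h2
  have h6 := Nat.lt_floor_add_one (b ^ 2)
  push_cast at h2
  linarith

/-- the sum of the squares of the coefficients -/
noncomputable def nrm (f : AddMonoidAlgebra ℝ ℝ) : ℝ := ∑ s ∈ f.coeff.support, f.coeff s ^ 2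

lemma nrm_nonneg (f : AddMonoidAlgebra ℝ ℝ) : 0 ≤ nrm f := Finset.sum_nonneg fun _ _ => sq_nonneg _

lemma nrm_eq {f : AddMonoidAlgebra ℝ ℝ} {S : Finset ℝ} (h : f.coeff.support ⊆ S) :
    nrm f = ∑ s ∈ S, f.coeff s ^ 2 := by
  refine Finset.sum_subset h fun s _ hs => ?_
  rw [Finsupp.notMem_support_iff.1 hs]
  simp

lemma conv_apply (m f : AddMonoidAlgebra ℝ ℝ) {S : Finset ℝ} (h : f.coeff.support ⊆ S) (s : ℝ) :
    (m * f).coeff s = ∑ t ∈ S, f.coeff t * m.coeff (s - t) := by
  rw [mul_comm m f, AddMonoidAlgebra.coeff_mul_apply_left, Finsupp.sum]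
  refine (Finset.sum_subset h fun t _ ht => ?_).trans (Finset.sum_congr rfl fun t _ => ?_)
  · rw [Finsupp.notMem_support_iff.1 ht]
    simp
  · rw [neg_add_eq_sub]

theorem nrm_mul_le {b : ℝ} (hb : 0 ≤ b) {m : AddMonoidAlgebra ℝ ℝ} (h : Basic b m.coeff)
    (f : AddMonoidAlgebra ℝ ℝ) : nrm (m * f) ≤ b ^ 2 * nrm f := by
  classical
  refine quad hb fun l _ => ?_
  set S := (m * f).coeff.support ∪ f.coeff.support with hS
  have h1 := h S (m * f).coeff (fun t => l * f.coeff t)
  rw [nrm_eq (S := S) Finset.subset_union_left, nrm_eq (S := S) Finset.subset_union_right]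
  calc l * ∑ s ∈ S, (m * f).coeff s ^ 2 =
      ∑ s ∈ S, ∑ t ∈ S, (m * f).coeff s * (l * f.coeff t) * m.coeff (s - t) := by
        rw [Finset.mul_sum]
        refine Finset.sum_congr rfl fun s _ => ?_
        have h2 := conv_apply m f (S := S) Finset.subset_union_right s
        have h3 : ∑ t ∈ S, (m * f).coeff s * (l * f.coeff t) * m.coeff (s - t) =
            (l * (m * f).coeff s) * ∑ t ∈ S, f.coeff t * m.coeff (s - t) := by
          rw [Finset.mul_sum]
          exact Finset.sum_congr rfl fun t _ => by ring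
        rw [h3, ← h2]
        ring
    _ ≤ b / 2 * ∑ s ∈ S, ((m * f).coeff s ^ 2 + (l * f.coeff s) ^ 2) := h1
    _ = b / 2 * (∑ s ∈ S, (m * f).coeff s ^ 2 + l ^ 2 * ∑ s ∈ S, f.coeff s ^ 2) := by
        rw [Finset.sum_add_distrib, Finset.mul_sum (s := S) (a := l ^ 2)]
        simp only [mul_pow]

theorem nrm_pow_le {b : ℝ} (hb : 0 ≤ b) {m : AddMonoidAlgebra ℝ ℝ} (h : Basic b m.coeff) (n : ℕ) :
    nrm (m ^ n) ≤ (b ^ 2) ^ n := by
  induction n with
  | zero =>
    rw [pow_zero, pow_zero, nrm_eq (S := {0}) ?_]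
    · rw [Finset.sum_singleton, AddMonoidAlgebra.one_def, AddMonoidAlgebra.coeff_single]
      simp
    · rw [AddMonoidAlgebra.one_def, AddMonoidAlgebra.coeff_single]
      exact Finsupp.support_single_subset
  | succ n ih =>
    rw [pow_succ', pow_succ']
    exact (nrm_mul_le hb h _).trans (mul_le_mul_of_nonneg_left ih (sq_nonneg b))

/-- the character -/
noncomputable def chr (u : ℝ) : Multiplicative ℝ →* ℂ where
  toFun := fun t => Complex.exp ((((Multiplicative.toAdd t : ℝ) * u : ℝ) : ℂ) * Complex.I)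
  map_one' := by simp
  map_mul' := fun s t => by
    rw [← Complex.exp_add]
    congr 1
    simp only [toAdd_mul]
    push_cast
    ring

/-- the value at `u` -/
noncomputable def ev (u : ℝ) : AddMonoidAlgebra ℝ ℝ →ₐ[ℝ] ℂ :=
  AddMonoidAlgebra.lift ℝ ℂ ℝ (chr u)

lemma ev_apply (u : ℝ) (f : AddMonoidAlgebra ℝ ℝ) :
    ev u f = ∑ t ∈ f.coeff.support, (f.coeff t : ℂ) * Complex.exp (((t * u : ℝ) : ℂ) * Complex.I) := by
  rw [ev, AddMonoidAlgebra.lift_apply, Finsupp.sum]
  refine Finset.sum_congr rfl fun t _ => ?_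
  rw [Complex.real_smul]
  rfl

lemma ev_sq_le (u : ℝ) (f : AddMonoidAlgebra ℝ ℝ) :
    ‖ev u f‖ ^ 2 ≤ f.coeff.support.card * nrm f := by
  have h1 : ‖ev u f‖ ≤ ∑ t ∈ f.coeff.support, |f.coeff t| := by
    rw [ev_apply]
    refine (norm_sum_le _ _).trans (Finset.sum_le_sum fun t _ => ?_)
    rw [norm_mul, Complex.norm_exp_ofReal_mul_I, mul_one, Complex.norm_real, Real.norm_eq_abs]
  have h2 := sq_sum_le_card_mul_sum_sq (s := f.coeff.support) (f := fun t => |f.coeff t|)
  simp only [sq_abs] at h2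
  calc ‖ev u f‖ ^ 2 ≤ (∑ t ∈ f.coeff.support, |f.coeff t|) ^ 2 := by gcongr
    _ ≤ _ := h2

lemma card_supp_pow (m : AddMonoidAlgebra ℝ ℝ) (n : ℕ) :
    (m ^ n).coeff.support.card ≤ (n + 1) ^ m.coeff.support.card := by
  classical
  set T := m.coeff.support with hT
  have key : ∀ n : ℕ, (m ^ n).coeff.support ⊆
      (Fintype.piFinset fun _ : T => Finset.range (n + 1)).image fun k : T → ℕ =>
        ∑ t, (k t : ℝ) * (t : ℝ) := by
    intro n
    induction n with
    | zero =>
      intro x hx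
      rw [pow_zero, AddMonoidAlgebra.one_def, AddMonoidAlgebra.coeff_single] at hx
      have := Finsupp.support_single_subset hx
      rw [Finset.mem_singleton] at this
      rw [Finset.mem_image]
      exact ⟨fun _ => 0, by simp, by simp [this]⟩
    | succ n ih =>
      intro x hx
      rw [pow_succ', Finsupp.mem_support_iff, conv_apply m _ (Finset.Subset.refl _)] at hx
      obtain ⟨t, ht, h1⟩ := Finset.exists_ne_zero_of_sum_ne_zero hx
      obtain ⟨k, hk, hk2⟩ := Finset.mem_image.1 (ih ht)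
      have h2 : x - t ∈ T := Finsupp.mem_support_iff.2 (right_ne_zero_of_mul h1)
      rw [Finset.mem_image]
      refine ⟨fun s => k s + if (s : ℝ) = x - t then 1 else 0, ?_, ?_⟩
      · rw [Fintype.mem_piFinset] at hk ⊢
        intro s
        have := Finset.mem_range.1 (hk s)
        rw [Finset.mem_range]
        split_ifs <;> omega
      · push_cast
        simp only [add_mul, Finset.sum_add_distrib]
        rw [hk2]
        have h3 : ∑ s : T, (if (s : ℝ) = x - t then (1 : ℝ) else 0) * (s : ℝ) = x - t := by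
          rw [Finset.sum_eq_single (⟨x - t, h2⟩ : T)]
          · simp
          · intro s _ hs
            rw [if_neg fun h => hs (Subtype.ext h)]
            simp
          · intro h
            exact absurd (Finset.mem_univ _) h
        rw [h3]
        ring
  refine (Finset.card_le_card (key n)).trans (Finset.card_image_le.trans ?_)
  rw [Fintype.card_piFinset]
  simp

/-- the supremum norm is at most `b` -/
theorem sup_le {b : ℝ} (hb : 0 ≤ b) {m : AddMonoidAlgebra ℝ ℝ} (h : Basic b m.coeff) (u : ℝ) :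
    ‖ev u m‖ ≤ b := by
  by_contra hlt
  rw [not_le] at hlt
  have h1 : ∀ n : ℕ, (‖ev u m‖ ^ 2) ^ n ≤ ((n : ℝ) + 1) ^ m.coeff.support.card * (b ^ 2) ^ n := by
    intro n
    have h2 := ev_sq_le u (m ^ n)
    rw [map_pow, norm_pow, ← pow_mul, mul_comm n 2, pow_mul] at h2
    refine h2.trans (mul_le_mul ?_ (nrm_pow_le hb h n) (nrm_nonneg _) (by positivity))
    exact_mod_cast card_supp_pow m n
  rcases hb.eq_or_lt with h0 | h0
  · have h2 := h1 1
    rw [← h0] at h2 hlt
    have : 0 < ‖ev u m‖ ^ 2 := by positivity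
    simp only [pow_one] at h2
    nlinarith
  · set r : ℝ := ‖ev u m‖ ^ 2 / b ^ 2 with hr
    have hr1 : 1 < r := by
      rw [hr, one_lt_div (by positivity)]
      gcongr
    have h2 : ∀ n : ℕ, r ^ n ≤ ((n : ℝ) + 1) ^ m.coeff.support.card := by
      intro n
      rw [hr, div_pow, div_le_iff₀ (by positivity)]
      exact h1 n
    have h3 : Filter.Tendsto (fun n : ℕ => ((n : ℝ) + 1) ^ m.coeff.support.card / r ^ n)
        Filter.atTop (nhds 0) := by
      have h4 := tendsto_pow_const_div_const_pow_of_one_lt m.coeff.support.card hr1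
      have h5 := (h4.comp (Filter.tendsto_add_atTop_nat 1)).mul_const r
      rw [zero_mul] at h5
      refine h5.congr fun n => ?_
      simp only [Function.comp]
      push_cast
      rw [pow_succ]
      field_simp
    obtain ⟨n, hn⟩ := (h3.eventually (gt_mem_nhds one_pos)).exists
    rw [div_lt_one (by positivity)] at hn
    exact absurd (h2 n) (not_le.2 hn)

end Pool.Agent.V7H1.ED
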