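import Pool.Agent.V7H1.ED.Loc
import Pool.Agent.V7H1.SM.HasseWeil

/-!
# The logarithmic derivative of the Euler product
-/

set_option autoImplicit false

namespace Pool.Agent.V7H1.ED

open Finset Filter Topology Complex
open Pool.Agent.V7H1.HW Pool.Agent.V7H1.SM
open Pool.Agent.N41.RM (cq fq)

/-- the prime power -/
def pp {N : ℕ} (x : Good N × ℕ) : ℕ := (x.1.1 : ℕ) ^ (x.2 + 1)

lemma pp_inj {N : ℕ} : Function.Injective (pp (N := N)) := by
  rintro ⟨p, k⟩ ⟨q, l⟩ h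
  have h1 : (p.1 : ℕ) ^ (k + 1) = (q.1 : ℕ) ^ (l + 1) := h
  have h2 : (p.1 : ℕ) = q.1 := by
    have h3 : (p.1 : ℕ) ∣ (q.1 : ℕ) ^ (l + 1) := h1 ▸ dvd_pow_self _ (Nat.succ_ne_zero k)
    exact (Nat.prime_dvd_prime_iff_eq p.1.2 q.1.2).1 (p.1.2.dvd_of_dvd_pow h3)
  have h4 : k = l := by
    rw [h2] at h1
    have := Nat.pow_right_injective q.1.2.two_le h1
    omega
  have h5 : p = q := Subtype.ext (Subtype.ext h2)
  rw [h4, h5]

lemma pp_pos {N : ℕ} (x : Good N × ℕ) : 0 < pp x := pow_pos x.1.1.2.pos _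

variable {N i b : ℕ} {α : Good N → Fin b → ℂ}

/-- the normalised trace of a power of Frobenius -/
noncomputable def nt (i : ℕ) (α : Good N → Fin b → ℂ) (x : Good N × ℕ) : ℝ :=
  (∑ j, α x.1 j ^ (x.2 + 1)).re / (((x.1.1 : ℕ) : ℝ) ^ ((i : ℝ) / 2)) ^ (x.2 + 1)

/-- the normalised traces at the prime powers -/
noncomputable def th (i : ℕ) (α : Good N → Fin b → ℂ) : ℕ → ℝ := Function.extend pp (nt i α) 0

/-- the coefficients of the logarithm -/
noncomputable def gg (i : ℕ) (α : Good N → Fin b → ℂ) : ℕ → ℂ :=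
  Function.extend pp (fun x => ((nt i α x / (x.2 + 1) : ℝ) : ℂ)) 0

lemma nt_le (E : Frob N i b α) (x : Good N × ℕ) : |nt i α x| ≤ b := by
  have hp : (0 : ℝ) < ((x.1.1 : ℕ) : ℝ) := by exact_mod_cast x.1.1.2.pos
  have h1 : (0 : ℝ) < (((x.1.1 : ℕ) : ℝ) ^ ((i : ℝ) / 2)) ^ (x.2 + 1) := by positivity
  rw [nt, abs_div, abs_of_pos h1, div_le_iff₀ h1]
  refine (abs_re_le_norm _).trans ((norm_sum_le _ _).trans ?_)
  have h2 : ∀ j ∈ (Finset.univ : Finset (Fin b)), ‖α x.1 j ^ (x.2 + 1)‖ =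
      (((x.1.1 : ℕ) : ℝ) ^ ((i : ℝ) / 2)) ^ (x.2 + 1) := by
    intro j _
    rw [norm_pow, E.weight]
  rw [Finset.sum_congr rfl h2, Finset.sum_const, Finset.card_univ, Fintype.card_fin, nsmul_eq_mul]

lemma th_pp (x : Good N × ℕ) : th i α (pp x) = nt i α x := pp_inj.extend_apply _ _ _

lemma gg_pp (x : Good N × ℕ) : gg i α (pp x) = ((nt i α x / (x.2 + 1) : ℝ) : ℂ) :=
  pp_inj.extend_apply _ _ _

lemma th_of_not {n : ℕ} (h : ¬ ∃ x : Good N × ℕ, pp x = n) : th i α n = 0 :=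
  Function.extend_apply' _ _ _ h

lemma gg_of_not {n : ℕ} (h : ¬ ∃ x : Good N × ℕ, pp x = n) : gg i α n = 0 :=
  Function.extend_apply' _ _ _ h

lemma th_le (E : Frob N i b α) (n : ℕ) : |th i α n| ≤ b := by
  by_cases h : ∃ x : Good N × ℕ, pp x = n
  · obtain ⟨x, rfl⟩ := h
    rw [th_pp]
    exact nt_le E x
  · rw [th_of_not h, abs_zero]
    positivity

lemma gg_le (E : Frob N i b α) (n : ℕ) : ‖gg i α n‖ ≤ b := by
  by_cases h : ∃ x : Good N × ℕ, pp x = n
  · obtain ⟨x, rfl⟩ := h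
    rw [gg_pp, norm_real, Real.norm_eq_abs, abs_div]
    have h1 : (1 : ℝ) ≤ |(x.2 : ℝ) + 1| := by
      rw [abs_of_nonneg (by positivity)]
      have : (0 : ℝ) ≤ x.2 := by positivity
      linarith
    exact (div_le_self (abs_nonneg _) h1).trans (nt_le E x)
  · rw [gg_of_not h, norm_zero]
    positivity

lemma log_pp (x : Good N × ℕ) :
    Real.log (pp x) = (x.2 + 1) * Real.log ((x.1.1 : ℕ) : ℝ) := by
  rw [pp]
  push_cast
  rw [Real.log_pow]
  push_cast
  rfl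

lemma logMul_gg : LSeries.logMul (gg i α) = cC (th i α) := by
  funext n
  rw [LSeries.logMul, cC]
  by_cases h : ∃ x : Good N × ℕ, pp x = n
  · obtain ⟨x, rfl⟩ := h
    have h1 : ArithmeticFunction.vonMangoldt (pp x) = Real.log ((x.1.1 : ℕ) : ℝ) := by
      rw [pp, ArithmeticFunction.vonMangoldt_apply_pow (Nat.succ_ne_zero _),
        ArithmeticFunction.vonMangoldt_apply_prime x.1.1.2]
    rw [gg_pp, th_pp, h1, ← natCast_log, log_pp]
    have h2 : (x.2 : ℂ) + 1 ≠ 0 := by exact_mod_cast Nat.succ_ne_zero x.2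
    push_cast
    field_simp
  · rw [gg_of_not h, th_of_not h]
    simp

lemma gg_summable (E : Frob N i b α) {s : ℂ} (hs : 1 < s.re) : LSeriesSummable (gg i α) s :=
  LSeriesSummable_of_bounded_of_one_lt_re (fun n _ => gg_le E n) hs

lemma abscissa (E : Frob N i b α) {s : ℂ} (hs : 1 < s.re) :
    LSeries.abscissaOfAbsConv (gg i α) < s.re := by
  have h1 : LSeries.abscissaOfAbsConv (gg i α) ≤ 1 :=
    LSeries.abscissaOfAbsConv_le_of_forall_lt_LSeriesSummable fun y hy =>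
      gg_summable E (by simpa using hy)
  exact lt_of_le_of_lt h1 (by exact_mod_cast hs)

lemma LSeries_gg (E : Frob N i b α) {s : ℂ} (hs : 1 < s.re) :
    LSeries (gg i α) s = cser fr (tr α) (s + ((i : ℝ) / 2 : ℝ)) := by
  rw [LSeries, cser]
  have h1 : Function.support (LSeries.term (gg i α) s) ⊆ Set.range (pp (N := N)) := by
    intro n hn
    by_contra h
    apply hn
    have h2 : ¬ ∃ x : Good N × ℕ, pp x = n := h
    rcases eq_or_ne n 0 with rfl | hn0
    · exact LSeries.term_zero _ _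
    · rw [LSeries.term_of_ne_zero hn0, gg_of_not h2, zero_div]
  rw [← pp_inj.tsum_eq h1]
  refine tsum_congr fun x => ?_
  have hp : (0 : ℝ) < ((x.1.1 : ℕ) : ℝ) := by exact_mod_cast x.1.1.2.pos
  have hlog : Complex.log ((pp x : ℕ) : ℂ) = ((fr x : ℝ) : ℂ) := by
    rw [← natCast_log, log_pp]
    rfl
  have h3 : (((((x.1.1 : ℕ) : ℝ) ^ ((i : ℝ) / 2)) ^ (x.2 + 1) : ℝ) : ℂ) =
      exp (((i : ℝ) / 2 : ℝ) * (fr x : ℝ)) := by
    rw [← Real.rpow_natCast, ← Real.rpow_mul hp.le, Real.rpow_def_of_pos hp, ofReal_exp]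
    congr 1
    rw [fr]
    push_cast
    ring
  rw [LSeries.term_of_ne_zero (pp_pos x).ne', gg_pp, nt,
    cpow_def_of_ne_zero (by exact_mod_cast (pp_pos x).ne'), hlog, tr_eq E, cq]
  push_cast [h3]
  rw [show -((s + (i : ℂ) / 2) * (fr x : ℂ)) = -(((i : ℂ) / 2) * (fr x : ℂ)) - (fr x : ℂ) * s by ring,
    exp_sub, exp_neg]
  field_simp

/-- `F` is meromorphic at all points of the closed half plane `Re s ≥ 1 + i/2` and continues the
Euler product. -/
structure EdgeCont (i : ℕ) (α : Good N → Fin b → ℂ) (F : ℂ → ℂ) : Prop where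
  mero : ∀ s : ℂ, 1 + (i : ℝ) / 2 ≤ s.re → MeromorphicAt F s
  eq : ∀ s : ℂ, 1 + (i : ℝ) / 2 < s.re → F s = Euler α s

variable {F : ℂ → ℂ}

/-- the shifted function -/
noncomputable def Sh (i : ℕ) (F : ℂ → ℂ) (s : ℂ) : ℂ := F (s + ((i : ℝ) / 2 : ℝ))

lemma order_Sh (s : ℂ) :
    meromorphicOrderAt (Sh i F) s = meromorphicOrderAt F (s + ((i : ℝ) / 2 : ℝ)) := by
  have h1 : deriv (fun s : ℂ => s + ((i : ℝ) / 2 : ℝ)) s ≠ 0 := by
    rw [deriv_add_const, deriv_id'']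
    norm_num
  exact meromorphicOrderAt_comp_of_deriv_ne_zero (f := F) (g := fun s : ℂ => s + ((i : ℝ) / 2 : ℝ))
    (by fun_prop) h1

lemma mero_Sh (C : EdgeCont i α F) {s : ℂ} (hs : 1 ≤ s.re) : MeromorphicAt (Sh i F) s :=
  MeromorphicAt.comp_analyticAt (f := F) (g := fun s : ℂ => s + ((i : ℝ) / 2 : ℝ))
    (C.mero _ (by simp; linarith)) (by fun_prop)

lemma Sh_eq (E : Frob N i b α) (C : EdgeCont i α F) {s : ℂ} (hs : 1 < s.re) :
    Sh i F s = exp (LSeries (gg i α) s) := by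
  rw [Sh, C.eq _ (by simp; linarith), ← exp_cser E (by simp; linarith), LSeries_gg E hs]

lemma logDeriv_Sh (E : Frob N i b α) (C : EdgeCont i α F) {s : ℂ} (hs : 1 < s.re) :
    logDeriv (Sh i F) s = -LSeries (cC (th i α)) s := by
  have h1 : Sh i F =ᶠ[𝓝 s] fun z => exp (LSeries (gg i α) z) := by
    filter_upwards [(isOpen_lt continuous_const continuous_re).mem_nhds hs] with z hz
    exact Sh_eq E C hz
  have h2 := LSeries_hasDerivAt (abscissa E hs)
  rw [logDeriv_apply, h1.deriv_eq, h1.eq_of_nhds, (h2.cexp).deriv, logMul_gg]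
  field_simp

lemma Sh_ne (E : Frob N i b α) (C : EdgeCont i α F) {s : ℂ} (hs : 1 < s.re) : Sh i F s ≠ 0 := by
  rw [Sh_eq E C hs]
  exact exp_ne_zero _

lemma order_ne_top (E : Frob N i b α) (C : EdgeCont i α F) (t : ℝ) :
    meromorphicOrderAt (Sh i F) (1 + t * I) ≠ ⊤ := by
  intro h
  rw [meromorphicOrderAt_eq_top_iff] at h
  have h1 := (tendsto_pt_ne t).eventually h
  obtain ⟨σ, h2, h3⟩ := (h1.and self_mem_nhdsWithin).exists
  have h4 : (1 : ℝ) < σ := h3
  exact Sh_ne E C (by simpa using h4) h2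

/-- the multiplicities: minus the orders on the line -/
noncomputable def mu (i : ℕ) (F : ℂ → ℂ) (t : ℝ) : ℤ :=
  -(meromorphicOrderAt (Sh i F) (1 + t * I)).untop₀

lemma mu_spec (E : Frob N i b α) (C : EdgeCont i α F) (t : ℝ) :
    meromorphicOrderAt (Sh i F) (1 + t * I) = ((-mu i F t : ℤ) : WithTop ℤ) := by
  rw [mu, neg_neg, WithTop.coe_untop₀_of_ne_top (order_ne_top E C t)]

lemma mean_mu (E : Frob N i b α) (C : EdgeCont i α F) (t : ℝ) :
    Tendsto (fun σ : ℝ => ((σ - 1 : ℝ) : ℂ) * LSeries (cC (th i α)) (σ + t * I)) (𝓝[>] 1)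
      (𝓝 (((mu i F t : ℤ) : ℝ) : ℂ)) := by
  have h1 := (log_mean (mero_Sh C (by simp)) (mu_spec E C t)).neg
  push_cast at h1
  rw [neg_neg] at h1
  push_cast
  refine h1.congr' ?_
  filter_upwards [self_mem_nhdsWithin] with σ hσ
  have h2 : (1 : ℝ) < σ := hσ
  rw [logDeriv_Sh E C (by simpa using h2)]
  ring

/-- **the basic inequality for the orders on the line** -/
theorem basic_mu (E : Frob N i b α) (C : EdgeCont i α F) :
    Basic b fun t => ((mu i F t : ℤ) : ℝ) := basic_of (th_le E) (mean_mu E C)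

lemma LSeries_conj (θ : ℕ → ℝ) (s : ℂ) :
    LSeries (cC θ) ((starRingEnd ℂ) s) = (starRingEnd ℂ) (LSeries (cC θ) s) := by
  rw [LSeries, LSeries, conj_tsum]
  refine tsum_congr fun n => ?_
  rcases eq_or_ne n 0 with rfl | hn
  · simp [LSeries.term_zero]
  · rw [LSeries.term_of_ne_zero hn, LSeries.term_of_ne_zero hn, map_div₀, cC, conj_ofReal]
    congr 1
    rw [cpow_def_of_ne_zero (by exact_mod_cast hn), cpow_def_of_ne_zero (by exact_mod_cast hn),
      ← exp_conj, map_mul, ← natCast_log, conj_ofReal]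

lemma mu_neg (E : Frob N i b α) (C : EdgeCont i α F) (t : ℝ) : mu i F (-t) = mu i F t := by
  have h1 := (continuous_conj.tendsto _).comp (mean_mu E C t)
  rw [conj_ofReal] at h1
  have h2 : Tendsto (fun σ : ℝ => ((σ - 1 : ℝ) : ℂ) * LSeries (cC (th i α)) (σ + (-t : ℝ) * I))
      (𝓝[>] 1) (𝓝 (((mu i F t : ℤ) : ℝ) : ℂ)) := by
    refine h1.congr fun σ => ?_
    simp only [Function.comp, map_mul, conj_ofReal]
    rw [← LSeries_conj]
    congr 2
    simp
  have h3 := tendsto_nhds_unique (mean_mu E C (-t)) h2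
  exact_mod_cast h3

end Pool.Agent.V7H1.ED
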