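import Pool.Agent.V7H1.ED.Mean

/-!
# Logarithmic derivatives of meromorphic functions near the boundary line
-/

set_option autoImplicit false

namespace Pool.Agent.V7H1.ED

open Finset Filter Topology Complex

lemma ev_nhds {x : ℂ} {p : ℂ → Prop} (h : ∀ᶠ z in 𝓝[≠] x, p z) :
    ∀ᶠ z in 𝓝[≠] x, ∀ᶠ w in 𝓝 z, p w := by
  filter_upwards [eventually_eventually_nhdsWithin.2 h, self_mem_nhdsWithin] with z hz hzx
  rwa [isOpen_compl_singleton.nhdsWithin_eq hzx] at hz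

lemma local_form {Φ : ℂ → ℂ} {x : ℂ} {n : ℤ} (hm : MeromorphicAt Φ x)
    (hn : meromorphicOrderAt Φ x = n) :
    ∃ h : ℂ → ℂ, AnalyticAt ℂ h x ∧ ∀ᶠ z in 𝓝[≠] x, logDeriv Φ z = n / (z - x) + h z := by
  obtain ⟨g, hg, hg0, he⟩ := (meromorphicOrderAt_eq_int_iff hm).1 hn
  refine ⟨logDeriv g, hg.deriv.div hg hg0, ?_⟩
  have h1 : ∀ᶠ z in 𝓝[≠] x, AnalyticAt ℂ g z ∧ g z ≠ 0 :=
    (hg.eventually_analyticAt.and (hg.continuousAt.eventually_ne hg0)).filter_mono
      nhdsWithin_le_nhds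
  filter_upwards [ev_nhds he, h1, self_mem_nhdsWithin] with z hz hgz hzx
  have hzx' : z - x ≠ 0 := sub_ne_zero.2 hzx
  have h2 : Φ =ᶠ[𝓝 z] fun w => (w - x) ^ n * g w := hz
  have h3 : logDeriv Φ z = logDeriv (fun w => (w - x) ^ n * g w) z := by
    rw [logDeriv_apply, logDeriv_apply, h2.deriv_eq, h2.eq_of_nhds]
  have hd : DifferentiableAt ℂ (fun w : ℂ => w - x) z := by fun_prop
  have h4 : logDeriv (fun w => (w - x) ^ n * g w) z =
      logDeriv (fun w => (w - x) ^ n) z + logDeriv g z :=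
    logDeriv_mul (f := fun w => (w - x) ^ n) (g := g) z (zpow_ne_zero _ hzx') hgz.2
      (hd.zpow (Or.inl hzx')) hgz.1.differentiableAt
  rw [h3, h4, logDeriv_fun_zpow hd]
  congr 1
  rw [logDeriv_apply, deriv_sub_const, deriv_id'']
  field_simp

lemma tendsto_pt_ne (t : ℝ) : Tendsto (fun σ : ℝ => (σ : ℂ) + t * I) (𝓝[>] 1)
    (𝓝[≠] (1 + t * I)) := by
  rw [tendsto_nhdsWithin_iff]
  refine ⟨(tendsto_pt t).mono_right nhdsWithin_le_nhds, ?_⟩
  filter_upwards [self_mem_nhdsWithin] with σ hσ h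
  have h1 : (1 : ℝ) < σ := hσ
  have h2 := congrArg Complex.re (Set.mem_singleton_iff.1 h)
  simp at h2
  exact h1.ne' h2

/-- the residue as a limit on the horizontal line -/
lemma log_mean {Φ : ℂ → ℂ} {t : ℝ} {n : ℤ} (hm : MeromorphicAt Φ (1 + t * I))
    (hn : meromorphicOrderAt Φ (1 + t * I) = n) :
    Tendsto (fun σ : ℝ => ((σ - 1 : ℝ) : ℂ) * logDeriv Φ (σ + t * I)) (𝓝[>] 1) (𝓝 (n : ℂ)) := by
  obtain ⟨h, hh, he⟩ := local_form hm hn
  have h1 : Tendsto (fun σ : ℝ => h (σ + t * I)) (𝓝[>] 1) (𝓝 (h (1 + t * I))) :=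
    hh.continuousAt.tendsto.comp ((tendsto_pt_ne t).mono_right nhdsWithin_le_nhds)
  have h2 := (sub_one_tendsto.mul h1).const_add (n : ℂ)
  rw [zero_mul, add_zero] at h2
  refine h2.congr' ?_
  filter_upwards [(tendsto_pt_ne t).eventually he, self_mem_nhdsWithin] with σ hσ hσ1
  have hσ2 : (1 : ℝ) < σ := hσ1
  have h3 : (σ : ℂ) - 1 ≠ 0 := sub_ne_zero.2 (by exact_mod_cast hσ2.ne')
  rw [hσ]
  have h4 : (σ : ℂ) + t * I - (1 + t * I) = σ - 1 := by ring
  rw [h4]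
  push_cast
  field_simp

/-- the continuous extension of a function with removable singularities -/
noncomputable def ext (E : ℂ → ℂ) (s : ℂ) : ℂ := limUnder (𝓝[≠] s) E

lemma ext_near {E h : ℂ → ℂ} {x : ℂ} (hh : AnalyticAt ℂ h x) (he : ∀ᶠ z in 𝓝[≠] x, E z = h z) :
    ∀ᶠ z in 𝓝 x, ext E z = h z := by
  have h1 : ∀ᶠ z in 𝓝[≠] x, ext E z = h z := by
    filter_upwards [ev_nhds he, (hh.eventually_analyticAt).filter_mono nhdsWithin_le_nhds]
      with z hz hz2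
    refine Tendsto.limUnder_eq ?_
    refine (hz2.continuousAt.tendsto.mono_left nhdsWithin_le_nhds).congr' ?_
    filter_upwards [hz.filter_mono nhdsWithin_le_nhds] with w hw using hw.symm
  have h2 : ext E x = h x := by
    refine Tendsto.limUnder_eq ?_
    refine (hh.continuousAt.tendsto.mono_left nhdsWithin_le_nhds).congr' ?_
    filter_upwards [he] with w hw using hw.symm
  rw [eventually_nhdsWithin_iff] at h1
  filter_upwards [h1] with z hz
  by_cases hzx : z = x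
  · rw [hzx, h2]
  · exact hz hzx

lemma ext_cont {E h : ℂ → ℂ} {x : ℂ} (hh : AnalyticAt ℂ h x) (he : ∀ᶠ z in 𝓝[≠] x, E z = h z) :
    ContinuousAt (ext E) x := by
  have h1 : ext E =ᶠ[𝓝 x] h := ext_near hh he
  exact hh.continuousAt.congr h1.symm

end Pool.Agent.V7H1.ED
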