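import Pool.Agent.V7H1.ED.Alg
import Pool.Agent.Helper923.PNT

/-!
# Means with respect to the weights `(σ - 1) Λ(n) n ^ (-σ)`
-/

set_option autoImplicit false

namespace Pool.Agent.V7H1.ED

open Finset Filter Topology Complex ArithmeticFunction

/-- the von Mangoldt function with complex values -/
noncomputable def LamC (n : ℕ) : ℂ := ((vonMangoldt n : ℝ) : ℂ)

/-- the continuous extension of `L(Λ, s) - 1 / (s - 1)` -/
noncomputable def AZ : ℂ → ℂ :=
  ArithmeticFunction.vonMangoldt.LFunctionResidueClassAux (1 : ZMod 1)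

lemma AZ_cont : ContinuousOn AZ {s | 1 ≤ s.re} :=
  ArithmeticFunction.vonMangoldt.continuousOn_LFunctionResidueClassAux 1

lemma AZ_eq {s : ℂ} (hs : 1 < s.re) : AZ s = LSeries LamC s - 1 / (s - 1) := by
  have h := ArithmeticFunction.vonMangoldt.eqOn_LFunctionResidueClassAux (q := 1) (a := 1)
    isUnit_one hs
  rw [AZ, h]
  have h1 : (fun n : ℕ => ((ArithmeticFunction.vonMangoldt.residueClass (1 : ZMod 1) n : ℝ) : ℂ)) =
      LamC := by
    funext n
    rw [LamC]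
    congr 1
    unfold ArithmeticFunction.vonMangoldt.residueClass
    rw [Set.indicator_of_mem]
    exact Subsingleton.elim _ _
  rw [← h1]
  simp

lemma LamC_summable {s : ℂ} (hs : 1 < s.re) : LSeriesSummable LamC s :=
  LSeriesSummable_vonMangoldt hs

lemma tendsto_pt (t : ℝ) : Tendsto (fun σ : ℝ => (σ : ℂ) + t * I) (𝓝[>] 1)
    (𝓝[{s | 1 ≤ s.re}] (1 + t * I)) := by
  rw [tendsto_nhdsWithin_iff]
  constructor
  · have : ContinuousAt (fun σ : ℝ => (σ : ℂ) + t * I) 1 := by fun_prop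
    have h := this.tendsto
    simp only [ofReal_one] at h
    exact h.mono_left nhdsWithin_le_nhds
  · filter_upwards [self_mem_nhdsWithin] with σ hσ
    have : (1 : ℝ) < σ := hσ
    simp
    exact this.le

lemma sub_one_tendsto : Tendsto (fun σ : ℝ => ((σ - 1 : ℝ) : ℂ)) (𝓝[>] 1) (𝓝 0) := by
  have : ContinuousAt (fun σ : ℝ => ((σ - 1 : ℝ) : ℂ)) 1 := by fun_prop
  have h := this.tendsto
  simp only [sub_self, ofReal_zero] at h
  exact h.mono_left nhdsWithin_le_nhds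

/-- the mean of `n ^ (-i t)` -/
lemma lam_mean (t : ℝ) : Tendsto (fun σ : ℝ => ((σ - 1 : ℝ) : ℂ) * LSeries LamC (σ + t * I))
    (𝓝[>] 1) (𝓝 (if t = 0 then 1 else 0)) := by
  have h1 : Tendsto (fun σ : ℝ => ((σ - 1 : ℝ) : ℂ) * AZ (σ + t * I)) (𝓝[>] 1) (𝓝 0) := by
    have h2 := (AZ_cont (1 + t * I) (by simp)).tendsto.comp (tendsto_pt t)
    have h3 := sub_one_tendsto.mul h2
    rwa [zero_mul] at h3
  have h4 : Tendsto (fun σ : ℝ => ((σ - 1 : ℝ) : ℂ) / ((σ : ℂ) + t * I - 1)) (𝓝[>] 1)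
      (𝓝 (if t = 0 then 1 else 0)) := by
    split_ifs with ht
    · refine (tendsto_const_nhds (x := (1 : ℂ))).congr' ?_
      filter_upwards [self_mem_nhdsWithin] with σ hσ
      have : (1 : ℝ) < σ := hσ
      rw [ht]
      push_cast
      rw [zero_mul, add_zero, div_self]
      exact sub_ne_zero.2 (by exact_mod_cast this.ne')
    · have h5 : ContinuousAt (fun σ : ℝ => ((σ - 1 : ℝ) : ℂ) / ((σ : ℂ) + t * I - 1)) 1 := by
        refine ContinuousAt.div (by fun_prop) (by fun_prop) ?_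
        simp [ht]
      have h6 := h5.tendsto
      simp only [sub_self, ofReal_zero, zero_div] at h6
      exact h6.mono_left nhdsWithin_le_nhds
  have h7 := h1.add h4
  rw [zero_add] at h7
  refine h7.congr' ?_
  filter_upwards [self_mem_nhdsWithin] with σ hσ
  have : (1 : ℝ) < σ := hσ
  rw [AZ_eq (by simpa using this)]
  ring

/-- the coefficients `θ(n) Λ(n)` -/
noncomputable def cC (θ : ℕ → ℝ) (n : ℕ) : ℂ := ((θ n * vonMangoldt n : ℝ) : ℂ)

lemma cC_summable {θ : ℕ → ℝ} {b : ℝ} (hb : ∀ n, |θ n| ≤ b) {s : ℂ} (hs : 1 < s.re) :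
    LSeriesSummable (cC θ) s := by
  refine Summable.of_norm_bounded (g := fun n => b * ‖LSeries.term LamC s n‖)
    ((LamC_summable hs).norm.mul_left b) fun n => ?_
  rcases eq_or_ne n 0 with rfl | hn
  · simp [LSeries.term_zero]
  · rw [LSeries.term_of_ne_zero hn, LSeries.term_of_ne_zero hn, norm_div, norm_div, cC, LamC,
      norm_real, norm_real, norm_mul, ← mul_div_assoc]
    gcongr
    exact hb n

lemma term_eq (f : ℕ → ℂ) {n : ℕ} (hn : n ≠ 0) (σ u : ℝ) :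
    LSeries.term f (σ + u * I) n =
      f n * (((n : ℝ) ^ (-σ) : ℝ) : ℂ) * exp (((-(u * Real.log n) : ℝ) : ℂ) * I) := by
  have hn' : (0 : ℝ) < n := by exact_mod_cast Nat.pos_of_ne_zero hn
  rw [LSeries.term_of_ne_zero hn, div_eq_mul_inv, mul_assoc]
  congr 1
  rw [← Complex.cpow_neg, ofReal_cpow hn'.le, cpow_def_of_ne_zero (by exact_mod_cast hn),
    cpow_def_of_ne_zero (by exact_mod_cast hn), ← Complex.exp_add]
  congr 1
  simp only [ofReal_natCast, ofReal_neg, ofReal_mul]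
  rw [← Complex.natCast_log]
  ring

lemma double (S : Finset ℝ) (G H : ℝ → ℝ) (L : ℝ) :
    ∑ s ∈ S, ∑ t ∈ S, ((G s * H t : ℝ) : ℂ) * exp (((-((s - t) * L) : ℝ) : ℂ) * I) =
      (starRingEnd ℂ) (∑ s ∈ S, (G s : ℂ) * exp (((s * L : ℝ) : ℂ) * I)) *
        ∑ t ∈ S, (H t : ℂ) * exp (((t * L : ℝ) : ℂ) * I) := by
  rw [map_sum, Finset.sum_mul_sum]
  refine Finset.sum_congr rfl fun s _ => Finset.sum_congr rfl fun t _ => ?_
  rw [map_mul, conj_ofReal, ← exp_conj, map_mul, conj_ofReal, conj_I]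
  have h1 : exp (((-((s - t) * L) : ℝ) : ℂ) * I) =
      exp (((s * L : ℝ) : ℂ) * -I) * exp (((t * L : ℝ) : ℂ) * I) := by
    rw [← Complex.exp_add]
    congr 1
    push_cast
    ring
  rw [h1]
  push_cast
  ring

lemma re_conj_mul_le (z w : ℂ) : |((starRingEnd ℂ) z * w).re| ≤ (‖z‖ ^ 2 + ‖w‖ ^ 2) / 2 := by
  have h1 : |((starRingEnd ℂ) z * w).re| ≤ ‖z‖ * ‖w‖ := by
    refine (abs_re_le_norm _).trans ?_
    rw [norm_mul, RCLike.norm_conj]
  nlinarith [sq_nonneg (‖z‖ - ‖w‖)]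

/-- **the basic inequality for the orders** -/
theorem basic_of {θ : ℕ → ℝ} {b : ℝ} (hb : ∀ n, |θ n| ≤ b) {μ : ℝ → ℝ}
    (hμ : ∀ t : ℝ, Tendsto (fun σ : ℝ => ((σ - 1 : ℝ) : ℂ) * LSeries (cC θ) (σ + t * I))
      (𝓝[>] 1) (𝓝 (μ t))) : Basic b μ := by
  intro S G H
  set Q : ℝ → ℂ := fun σ => ∑ s ∈ S, ∑ t ∈ S,
    (((b / 2 * (G s * G t + H s * H t) : ℝ) : ℂ) * LSeries LamC (σ + (s - t : ℝ) * I) -
      ((G s * H t : ℝ) : ℂ) * LSeries (cC θ) (σ + (s - t : ℝ) * I)) with hQ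
  have hpos : ∀ σ : ℝ, 1 < σ → 0 ≤ (Q σ).re := by
    intro σ hσ
    have h1 : HasSum (fun n => ∑ s ∈ S, ∑ t ∈ S,
        (((b / 2 * (G s * G t + H s * H t) : ℝ) : ℂ) * LSeries.term LamC (σ + (s - t : ℝ) * I) n -
        ((G s * H t : ℝ) : ℂ) * LSeries.term (cC θ) (σ + (s - t : ℝ) * I) n)) (Q σ) := by
      refine hasSum_sum fun s _ => hasSum_sum fun t _ => ?_
      refine ((LamC_summable ?_).LSeriesHasSum.mul_left _).sub
        ((cC_summable hb ?_).LSeriesHasSum.mul_left _) <;> simpa using hσ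
    have h2 := (Complex.hasSum_re h1)
    refine h2.nonneg fun n => ?_
    rcases eq_or_ne n 0 with rfl | hn
    · simp [LSeries.term_zero]
    · set L := Real.log n with hL
      set z : ℂ := ∑ s ∈ S, (G s : ℂ) * exp (((s * L : ℝ) : ℂ) * I) with hz
      set w : ℂ := ∑ s ∈ S, (H s : ℂ) * exp (((s * L : ℝ) : ℂ) * I) with hw
      set r : ℝ := vonMangoldt n * (n : ℝ) ^ (-σ) with hr
      have hr0 : 0 ≤ r := mul_nonneg vonMangoldt_nonneg (by positivity)
      have h3 : (∑ s ∈ S, ∑ t ∈ S,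
        (((b / 2 * (G s * G t + H s * H t) : ℝ) : ℂ) * LSeries.term LamC (σ + (s - t : ℝ) * I) n -
        ((G s * H t : ℝ) : ℂ) * LSeries.term (cC θ) (σ + (s - t : ℝ) * I) n)) =
          (r : ℂ) * ((b / 2 : ℝ) * ((starRingEnd ℂ) z * z + (starRingEnd ℂ) w * w) -
            (θ n : ℂ) * ((starRingEnd ℂ) z * w)) := by
        rw [hz, hw, ← double, ← double, ← double]
        simp only [mul_add, mul_sub, Finset.mul_sum, ← Finset.sum_add_distrib,
          ← Finset.sum_sub_distrib]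
        refine Finset.sum_congr rfl fun s _ => Finset.sum_congr rfl fun t _ => ?_
        rw [term_eq LamC hn, term_eq (cC θ) hn, LamC, cC, hr, ← hL]
        generalize exp (((-((s - t) * L) : ℝ) : ℂ) * I) = E
        push_cast
        ring
      rw [h3, re_ofReal_mul]
      refine mul_nonneg hr0 ?_
      have h4 : (starRingEnd ℂ) z * z = ((‖z‖ ^ 2 : ℝ) : ℂ) := by
        rw [mul_comm, mul_conj, normSq_eq_norm_sq]
      have h5 : (starRingEnd ℂ) w * w = ((‖w‖ ^ 2 : ℝ) : ℂ) := by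
        rw [mul_comm, mul_conj, normSq_eq_norm_sq]
      rw [h4, h5, sub_re, ← ofReal_add, ← ofReal_mul, ofReal_re, re_ofReal_mul]
      have h6 := re_conj_mul_le z w
      have h7 : θ n * ((starRingEnd ℂ) z * w).re ≤ |θ n| * |((starRingEnd ℂ) z * w).re| := by
        rw [← abs_mul]
        exact le_abs_self _
      have h8 : |θ n| * |((starRingEnd ℂ) z * w).re| ≤ b * ((‖z‖ ^ 2 + ‖w‖ ^ 2) / 2) :=
        mul_le_mul (hb n) h6 (abs_nonneg _) ((abs_nonneg _).trans (hb n))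
      nlinarith
  have hlim : Tendsto (fun σ : ℝ => ((σ - 1 : ℝ) : ℂ) * Q σ) (𝓝[>] 1)
      (𝓝 (∑ s ∈ S, ∑ t ∈ S, (((b / 2 * (G s * G t + H s * H t) : ℝ) : ℂ) *
        (if s - t = 0 then 1 else 0) - ((G s * H t : ℝ) : ℂ) * (μ (s - t) : ℂ)))) := by
    have h1 : Tendsto (fun σ : ℝ => ∑ s ∈ S, ∑ t ∈ S,
        (((b / 2 * (G s * G t + H s * H t) : ℝ) : ℂ) *
          (((σ - 1 : ℝ) : ℂ) * LSeries LamC (σ + (s - t : ℝ) * I)) -
        ((G s * H t : ℝ) : ℂ) * (((σ - 1 : ℝ) : ℂ) * LSeries (cC θ) (σ + (s - t : ℝ) * I))))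
        (𝓝[>] 1) (𝓝 (∑ s ∈ S, ∑ t ∈ S, (((b / 2 * (G s * G t + H s * H t) : ℝ) : ℂ) *
        (if s - t = 0 then 1 else 0) - ((G s * H t : ℝ) : ℂ) * (μ (s - t) : ℂ)))) :=
      tendsto_finsetSum _ fun s _ => tendsto_finsetSum _ fun t _ =>
        ((lam_mean (s - t)).const_mul _).sub ((hμ (s - t)).const_mul _)
    refine h1.congr fun σ => ?_
    rw [hQ, Finset.mul_sum]
    refine Finset.sum_congr rfl fun s _ => ?_
    rw [Finset.mul_sum]
    refine Finset.sum_congr rfl fun t _ => ?_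
    ring
  have hre := (continuous_re.tendsto _).comp hlim
  have h0 : 0 ≤ (∑ s ∈ S, ∑ t ∈ S, (((b / 2 * (G s * G t + H s * H t) : ℝ) : ℂ) *
        (if s - t = 0 then 1 else 0) - ((G s * H t : ℝ) : ℂ) * (μ (s - t) : ℂ))).re := by
    refine ge_of_tendsto hre ?_
    filter_upwards [self_mem_nhdsWithin] with σ hσ
    have hσ' : (1 : ℝ) < σ := hσ
    simp only [Function.comp]
    rw [re_ofReal_mul]
    exact mul_nonneg (by linarith) (hpos σ hσ')
  have h9 : (∑ s ∈ S, ∑ t ∈ S, (((b / 2 * (G s * G t + H s * H t) : ℝ) : ℂ) *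
        (if s - t = 0 then 1 else 0) - ((G s * H t : ℝ) : ℂ) * (μ (s - t) : ℂ))).re =
      b / 2 * ∑ s ∈ S, (G s ^ 2 + H s ^ 2) - ∑ s ∈ S, ∑ t ∈ S, G s * H t * μ (s - t) := by
    rw [re_sum, Finset.mul_sum, ← Finset.sum_sub_distrib]
    refine Finset.sum_congr rfl fun s hs => ?_
    rw [re_sum]
    have h10 : b / 2 * (G s ^ 2 + H s ^ 2) =
        ∑ t ∈ S, b / 2 * (G s * G t + H s * H t) * (if s - t = 0 then 1 else 0) := by
      rw [Finset.sum_eq_single_of_mem s hs]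
      · rw [sub_self, if_pos rfl]
        ring
      · intro t _ ht
        rw [if_neg (sub_ne_zero.2 ht.symm), mul_zero]
    rw [h10, ← Finset.sum_sub_distrib]
    refine Finset.sum_congr rfl fun t _ => ?_
    have h11 : (if s - t = 0 then (1 : ℂ) else 0) = (((if s - t = 0 then (1 : ℝ) else 0) : ℝ) : ℂ) := by
      split_ifs <;> simp
    rw [h11, ← ofReal_mul, ← ofReal_mul, ← ofReal_sub, ofReal_re]
  rw [h9] at h0
  linarith

end Pool.Agent.V7H1.ED
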