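import Pool.Agent.V7H1.ED.Frb
import Pool.Agent.V7H1.HW.FE

/-!
# The prime number theorem
-/

set_option autoImplicit false

namespace Pool.Agent.V7H1.ED

open Finset Filter Topology Complex
open Pool.Agent.V7H1.HW Pool.Agent.V7H1.SM

lemma cC_analytic {θ : ℕ → ℝ} {b : ℝ} (hb : ∀ n, |θ n| ≤ b) {s : ℂ} (hs : 1 < s.re) :
    AnalyticAt ℂ (LSeries (cC θ)) s := by
  refine LSeries_analyticOnNhd _ _ ?_
  have h1 : LSeries.abscissaOfAbsConv (cC θ) ≤ 1 :=
    LSeries.abscissaOfAbsConv_le_of_forall_lt_LSeriesSummable fun y hy =>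
      cC_summable hb (by simpa using hy)
  exact lt_of_le_of_lt h1 (by exact_mod_cast hs)

variable {N i b : ℕ} {α : Good N → Fin b → ℂ} {F : ℂ → ℂ}

/-- the function with removable singularities -/
noncomputable def EE (i : ℕ) (F : ℂ → ℂ) (T : Finset ℝ) (m : ℝ → ℤ) (s : ℂ) : ℂ :=
  -logDeriv (Sh i F) s - ∑ t ∈ T, (m t : ℂ) / (s - (1 + t * I))

lemma EE_right (E : Frob N i b α) (C : EdgeCont i α F) (T : Finset ℝ) (m : ℝ → ℤ) {x : ℂ}
    (hx : 1 < x.re) : ∃ h : ℂ → ℂ, AnalyticAt ℂ h x ∧ (∀ᶠ z in 𝓝[≠] x, EE i F T m z = h z) ∧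
      h x = LSeries (cC (th i α)) x - ∑ t ∈ T, (m t : ℂ) / (x - (1 + t * I)) := by
  refine ⟨fun z => LSeries (cC (th i α)) z - ∑ t ∈ T, (m t : ℂ) / (z - (1 + t * I)), ?_, ?_, rfl⟩
  · refine (cC_analytic (th_le E) hx).sub (Finset.analyticAt_fun_sum _ fun t _ => ?_)
    refine analyticAt_const.div (by fun_prop) ?_
    intro h
    have := congrArg Complex.re h
    simp at this
    linarith
  · refine Filter.Eventually.filter_mono nhdsWithin_le_nhds ?_
    filter_upwards [(isOpen_lt continuous_const continuous_re).mem_nhds hx] with z hz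
    rw [EE, logDeriv_Sh E C hz, neg_neg]

lemma EE_edge (E : Frob N i b α) (C : EdgeCont i α F) (T : Finset ℝ)
    (hT : ∀ t, mu i F t ≠ 0 → t ∈ T) (t₀ : ℝ) :
    ∃ h : ℂ → ℂ, AnalyticAt ℂ h (1 + t₀ * I) ∧
      (∀ᶠ z in 𝓝[≠] (1 + t₀ * I : ℂ), EE i F T (mu i F) z = h z) := by
  classical
  obtain ⟨g, hg, he⟩ := local_form (mero_Sh C (s := 1 + t₀ * I) (by simp)) (mu_spec E C t₀)
  refine ⟨fun z => -g z - ∑ t ∈ T.erase t₀, (mu i F t : ℂ) / (z - (1 + t * I)), ?_, ?_⟩
  · refine hg.neg.sub (Finset.analyticAt_fun_sum _ fun t ht => ?_)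
    refine analyticAt_const.div (by fun_prop) ?_
    intro h
    have h1 := congrArg Complex.im h
    simp at h1
    exact (Finset.mem_erase.1 ht).1 (by linarith)
  · filter_upwards [he] with z hz
    have h1 : ∑ t ∈ T, (mu i F t : ℂ) / (z - (1 + t * I)) =
        (mu i F t₀ : ℂ) / (z - (1 + t₀ * I)) +
          ∑ t ∈ T.erase t₀, (mu i F t : ℂ) / (z - (1 + t * I)) := by
      by_cases h0 : t₀ ∈ T
      · exact (Finset.add_sum_erase T (fun t : ℝ => (mu i F t : ℂ) / (z - (1 + t * I))) h0).symm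
      · have h2 : mu i F t₀ = 0 := by
          by_contra h3
          exact h0 (hT t₀ h3)
        rw [Finset.erase_eq_of_notMem h0, h2]
        simp
    rw [EE, hz, h1]
    push_cast
    ring

lemma EE_cont (E : Frob N i b α) (C : EdgeCont i α F) (T : Finset ℝ)
    (hT : ∀ t, mu i F t ≠ 0 → t ∈ T) : ContinuousOn (ext (EE i F T (mu i F))) {s | 1 ≤ s.re} := by
  intro x hx
  apply ContinuousAt.continuousWithinAt
  have hx' : 1 ≤ x.re := hx
  rcases hx'.eq_or_lt with h | h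
  · have h1 : x = 1 + x.im * I := by
      apply Complex.ext
      · simp [← h]
      · simp
    rw [h1]
    obtain ⟨g, h2, h3⟩ := EE_edge E C T hT x.im
    exact ext_cont h2 h3
  · obtain ⟨g, h2, h3, _⟩ := EE_right E C T (mu i F) h
    exact ext_cont h2 h3

lemma EE_eq (E : Frob N i b α) (C : EdgeCont i α F) (T : Finset ℝ) (m : ℝ → ℤ) {x : ℂ}
    (hx : 1 < x.re) : ext (EE i F T m) x =
      LSeries (cC (th i α)) x - ∑ t ∈ T, (m t : ℂ) / (x - (1 + t * I)) := by
  obtain ⟨g, h2, h3, h4⟩ := EE_right E C T m hx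
  rw [(ext_near h2 h3).self_of_nhds, h4]

/-- the trigonometric polynomial -/
noncomputable def MM (T : Finset ℝ) (m : ℝ → ℤ) (u : ℝ) : ℝ := ∑ t ∈ T, (m t : ℝ) * Real.cos (t * u)

lemma MM_le (T : Finset ℝ) (m : ℝ → ℤ) (u : ℝ) : |MM T m u| ≤ ∑ t ∈ T, |(m t : ℝ)| := by
  refine (Finset.abs_sum_le_sum_abs _ _).trans (Finset.sum_le_sum fun t _ => ?_)
  rw [abs_mul]
  exact mul_le_of_le_one_right (abs_nonneg _) (Real.abs_cos_le_one _)

/-- the nonnegative coefficients -/
noncomputable def fD (θ : ℕ → ℝ) (T : Finset ℝ) (m : ℝ → ℤ) (K : ℝ) (n : ℕ) : ℝ :=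
  (θ n - MM T m (Real.log n) + K) * ArithmeticFunction.vonMangoldt n

lemma cos_term {n : ℕ} (hn : n ≠ 0) (s : ℂ) (t : ℝ) :
    LSeries.term LamC (s - t * I) n + LSeries.term LamC (s + t * I) n =
      2 * ((ArithmeticFunction.vonMangoldt n : ℝ) * Real.cos (t * Real.log n) : ℝ) / (n : ℂ) ^ s := by
  have hn' : (n : ℂ) ≠ 0 := by exact_mod_cast hn
  rw [LSeries.term_of_ne_zero hn, LSeries.term_of_ne_zero hn, LamC, cpow_sub _ _ hn', cpow_add _ _ hn',
    cpow_def_of_ne_zero hn' ((t : ℂ) * I), ← natCast_log]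
  have h1 : (2 : ℂ) * ((Real.cos (t * Real.log n) : ℝ) : ℂ) =
      exp (((t * Real.log n : ℝ) : ℂ) * I) + exp (-(((t * Real.log n : ℝ) : ℂ) * I)) := by
    rw [ofReal_cos, Complex.two_cos]
    congr 2
    ring
  have h2 : exp (((Real.log n : ℝ) : ℂ) * ((t : ℂ) * I)) = exp (((t * Real.log n : ℝ) : ℂ) * I) := by
    congr 1
    push_cast
    ring
  rw [h2]
  set z := ((t * Real.log n : ℝ) : ℂ) * I with hz
  have h3 : exp z ≠ 0 := exp_ne_zero _
  have h4 : (n : ℂ) ^ s ≠ 0 := by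
    rw [cpow_def_of_ne_zero hn']
    exact exp_ne_zero _
  push_cast at h1 ⊢
  rw [mul_left_comm (2 : ℂ), h1, exp_neg]
  field_simp

lemma fD_LSeries {θ : ℕ → ℝ} {b : ℝ} (hb : ∀ n, |θ n| ≤ b) (T : Finset ℝ) (m : ℝ → ℤ) (K : ℝ)
    {s : ℂ} (hs : 1 < s.re) : LSeries (fun n => ((fD θ T m K n : ℝ) : ℂ)) s =
      LSeries (cC θ) s - ∑ t ∈ T, (m t : ℂ) / 2 * (LSeries LamC (s - t * I) +
        LSeries LamC (s + t * I)) + K * LSeries LamC s := by
  have h1 : HasSum (fun n => LSeries.term (cC θ) s n - ∑ t ∈ T, (m t : ℂ) / 2 *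
      (LSeries.term LamC (s - t * I) n + LSeries.term LamC (s + t * I) n) +
        K * LSeries.term LamC s n)
      (LSeries (cC θ) s - ∑ t ∈ T, (m t : ℂ) / 2 * (LSeries LamC (s - t * I) +
        LSeries LamC (s + t * I)) + K * LSeries LamC s) := by
    refine HasSum.add (HasSum.sub (cC_summable hb hs).LSeriesHasSum (hasSum_sum fun t _ => ?_))
      ((LamC_summable hs).LSeriesHasSum.mul_left _)
    refine HasSum.mul_left _ (HasSum.add ?_ ?_)
    · exact (LamC_summable (by simpa using hs)).LSeriesHasSum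
    · exact (LamC_summable (by simpa using hs)).LSeriesHasSum
  rw [← h1.tsum_eq, LSeries]
  refine tsum_congr fun n => ?_
  rcases eq_or_ne n 0 with rfl | hn
  · simp [LSeries.term_zero]
  · rw [Finset.sum_congr rfl fun t _ => by rw [cos_term hn s t], LSeries.term_of_ne_zero hn,
      LSeries.term_of_ne_zero hn, LSeries.term_of_ne_zero hn, fD, MM, cC, LamC]
    have h2 : ∑ t ∈ T, (m t : ℂ) / 2 * (2 * (((ArithmeticFunction.vonMangoldt n : ℝ) *
        Real.cos (t * Real.log n) : ℝ) : ℂ) / (n : ℂ) ^ s) =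
        ((∑ t ∈ T, (m t : ℝ) * Real.cos (t * Real.log n) : ℝ) : ℂ) *
          (ArithmeticFunction.vonMangoldt n : ℝ) / (n : ℂ) ^ s := by
      push_cast
      rw [Finset.sum_mul, Finset.sum_div]
      refine Finset.sum_congr rfl fun t _ => ?_
      ring
    rw [h2]
    push_cast
    ring

lemma MM_bd {θ : ℕ → ℝ} {b : ℝ} (hb : ∀ n, |θ n| ≤ b) (T : Finset ℝ) (m : ℝ → ℤ) (n : ℕ) :
    |θ n - MM T m (Real.log n)| ≤ b + ∑ t ∈ T, |(m t : ℝ)| :=
  (abs_sub _ _).trans (add_le_add (hb n) (MM_le T m _))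

/-- **the averages of the normalised traces** -/
theorem wi (E : Frob N i b α) (C : EdgeCont i α F) (T : Finset ℝ)
    (hT : ∀ t, mu i F t ≠ 0 ↔ t ∈ T) :
    Tendsto (fun x : ℝ => (∑ k ∈ Finset.Icc 1 ⌊x⌋₊,
      (th i α k - MM T (mu i F) (Real.log k)) * ArithmeticFunction.vonMangoldt k) / x)
      atTop (𝓝 0) := by
  set K : ℝ := b + ∑ t ∈ T, |(mu i F t : ℝ)| with hK
  have hbd := fun n => abs_le.1 (MM_bd (th_le E) T (mu i F) n)
  have hpos : ∀ n, 0 ≤ fD (th i α) T (mu i F) K n := fun n =>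
    mul_nonneg (by have := (hbd n).1; rw [hK]; linarith) ArithmeticFunction.vonMangoldt_nonneg
  have hle : ∀ n, fD (th i α) T (mu i F) K n ≤ 2 * K * ArithmeticFunction.vonMangoldt n := fun n =>
    mul_le_mul_of_nonneg_right (by have := (hbd n).2; rw [hK]; linarith)
      ArithmeticFunction.vonMangoldt_nonneg
  have hK0 : 0 ≤ K := by
    have := (abs_nonneg _).trans (MM_bd (th_le E) T (mu i F) 0)
    rw [hK]
    exact this
  have hsym : ∀ s : ℂ, ∑ t ∈ T, (mu i F t : ℂ) / (s - (1 + t * I)) =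
      ∑ t ∈ T, (mu i F t : ℂ) / (s - (1 - t * I)) := by
    intro s
    refine Finset.sum_nbij' (fun t => -t) (fun t => -t) ?_ ?_ ?_ ?_ ?_
    · intro t ht
      rw [← hT, mu_neg E C, hT]
      exact ht
    · intro t ht
      rw [← hT, mu_neg E C, hT]
      exact ht
    · intro t _
      ring
    · intro t _
      ring
    · intro t _
      rw [mu_neg E C]
      push_cast
      congr 1
      ring
  have h1 := Pool.Agent.Helper923.PNT.wiener_ikehara (fD (th i α) T (mu i F) K) hpos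
    (2 * K * (Real.log 4 + 4)) K (fun n => ?_)
    (fun s => ext (EE i F T (mu i F)) s - ∑ t ∈ T, (mu i F t : ℂ) / 2 * (AZ (s - t * I) +
      AZ (s + t * I)) + K * AZ s) ?_ ?_
  · have h2 := (h1.sub ((Pool.Agent.Helper923.PNT.psi_div_tendsto).const_mul K))
    rw [mul_one, sub_self] at h2
    refine h2.congr fun x => ?_
    rw [← mul_div_assoc, ← sub_div]
    congr 1
    unfold Chebyshev.psi
    rw [show Finset.Ioc 0 ⌊x⌋₊ = Finset.Icc 1 ⌊x⌋₊ from rfl, Finset.mul_sum,
      ← Finset.sum_sub_distrib]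
    refine Finset.sum_congr rfl fun k _ => ?_
    rw [fD]
    ring
  · refine (Finset.sum_le_sum fun k _ => hle k).trans ?_
    rw [← Finset.mul_sum]
    have h3 : ∑ k ∈ Finset.Icc 1 n, ArithmeticFunction.vonMangoldt k ≤ (Real.log 4 + 4) * n := by
      have h4 := Chebyshev.psi_le_const_mul_self (Nat.cast_nonneg (α := ℝ) n)
      unfold Chebyshev.psi at h4
      rw [Nat.floor_natCast] at h4
      exact h4
    have h4 := mul_le_mul_of_nonneg_left h3 (mul_nonneg zero_le_two hK0)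
    linarith
  · refine ContinuousOn.add (ContinuousOn.sub (EE_cont E C T fun t ht => (hT t).1 ht) ?_)
      (continuousOn_const.mul AZ_cont)
    refine continuousOn_finsetSum _ fun t _ => continuousOn_const.mul (ContinuousOn.add ?_ ?_)
    · exact AZ_cont.comp (by fun_prop) fun s hs => by simpa using hs
    · exact AZ_cont.comp (by fun_prop) fun s hs => by simpa using hs
  · intro s hs
    rw [EE_eq E C T (mu i F) hs, fD_LSeries (th_le E) T (mu i F) K hs, AZ_eq hs]
    have h5 : ∀ t ∈ T, (mu i F t : ℂ) / 2 * (AZ (s - t * I) + AZ (s + t * I)) =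
        (mu i F t : ℂ) / 2 * (LSeries LamC (s - t * I) + LSeries LamC (s + t * I)) -
          (mu i F t : ℂ) / (s - (1 + t * I)) / 2 - (mu i F t : ℂ) / (s - (1 - t * I)) / 2 := by
      intro t _
      rw [AZ_eq (by simpa using hs), AZ_eq (by simpa using hs)]
      rw [show s - t * I - 1 = s - (1 + t * I) by ring, show s + t * I - 1 = s - (1 - t * I) by ring]
      ring
    rw [Finset.sum_congr rfl h5, Finset.sum_sub_distrib, Finset.sum_sub_distrib, ← Finset.sum_div,
      ← Finset.sum_div, ← hsym s]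
    ring

/-- the good primes -/
def IsGood (N n : ℕ) : Prop := n.Prime ∧ ¬ n ∣ N

lemma tsum_good (x : ℝ) (f : ℕ → ℝ) : (∑' p : Good N, if ((p.1 : ℕ) : ℝ) ≤ x then f (p.1 : ℕ) else 0) =
    ∑ n ∈ Finset.Icc 1 ⌊x⌋₊, open Classical in if IsGood N n then f n else 0 := by
  classical
  have hinj : Function.Injective fun p : Good N => (p.1 : ℕ) := fun p q h =>
    Subtype.ext (Subtype.ext h)
  set g : ℕ → ℝ := fun n => if IsGood N n then (if (n : ℝ) ≤ x then f n else 0) else 0 with hg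
  have h1 : (∑' p : Good N, if ((p.1 : ℕ) : ℝ) ≤ x then f (p.1 : ℕ) else 0) =
      ∑' p : Good N, g (p.1 : ℕ) := by
    refine tsum_congr fun p => ?_
    have : IsGood N (p.1 : ℕ) := ⟨p.1.2, p.2⟩
    rw [hg]
    simp only
    rw [if_pos this]
  have h2 : Function.support g ⊆ Set.range fun p : Good N => (p.1 : ℕ) := by
    intro n hn
    have h3 : IsGood N n := by
      by_contra h
      exact hn (if_neg h)
    exact ⟨⟨⟨n, h3.1⟩, h3.2⟩, rfl⟩
  rw [h1, hinj.tsum_eq h2, tsum_eq_sum (s := Finset.Icc 1 ⌊x⌋₊)]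
  · refine Finset.sum_congr rfl fun n hn => ?_
    rw [Finset.mem_Icc] at hn
    have h4 : (n : ℝ) ≤ x := (Nat.le_floor_iff' (by omega)).1 hn.2
    rw [hg]
    simp only
    rw [if_pos h4]
  · intro n hn
    rw [hg]
    simp only
    split_ifs with h5 h6
    · exfalso
      apply hn
      rw [Finset.mem_Icc]
      exact ⟨h5.1.pos, (Nat.le_floor_iff' h5.1.ne_zero).2 h6⟩
    · rfl
    · rfl

lemma th_good (p : Good N) : th i α (p.1 : ℕ) =
    (∑ j, α p j).re / ((p.1 : ℕ) : ℝ) ^ ((i : ℝ) / 2) := by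
  have h1 : (p.1 : ℕ) = pp (p, 0) := by simp [pp]
  rw [h1, th_pp, nt]
  simp [pp]

/-- **the averages over the primes** -/
theorem prime_mean (hN : 0 < N) (E : Frob N i b α) (C : EdgeCont i α F) (T : Finset ℝ)
    (hT : ∀ t, mu i F t ≠ 0 ↔ t ∈ T) :
    Tendsto (fun x : ℝ => (∑' p : Good N, if ((p.1 : ℕ) : ℝ) ≤ x then
      ((∑ j, α p j).re / ((p.1 : ℕ) : ℝ) ^ ((i : ℝ) / 2) -
        MM T (mu i F) (Real.log (p.1 : ℕ))) * Real.log (p.1 : ℕ) else 0) / x) atTop (𝓝 0) := by
  classical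
  set K : ℝ := b + ∑ t ∈ T, |(mu i F t : ℝ)| with hK
  set D : ℕ → ℝ := fun n => (th i α n - MM T (mu i F) (Real.log n)) *
    ArithmeticFunction.vonMangoldt n with hD
  have hbd := MM_bd (th_le E) T (mu i F)
  have hK0 : 0 ≤ K := (abs_nonneg _).trans (hbd 0)
  have hDle : ∀ n, |D n| ≤ K * ArithmeticFunction.vonMangoldt n := fun n => by
    rw [hD, abs_mul, abs_of_nonneg (ArithmeticFunction.vonMangoldt_nonneg (n := n))]
    exact mul_le_mul_of_nonneg_right (hbd n) ArithmeticFunction.vonMangoldt_nonneg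
  have h1 : ∀ x : ℝ, (∑' p : Good N, if ((p.1 : ℕ) : ℝ) ≤ x then
      ((∑ j, α p j).re / ((p.1 : ℕ) : ℝ) ^ ((i : ℝ) / 2) -
        MM T (mu i F) (Real.log (p.1 : ℕ))) * Real.log (p.1 : ℕ) else 0) =
      ∑ n ∈ Finset.Icc 1 ⌊x⌋₊, if IsGood N n then D n else 0 := by
    intro x
    rw [← tsum_good x D]
    refine tsum_congr fun p => ?_
    have hv : ArithmeticFunction.vonMangoldt (p.1 : ℕ) = Real.log (p.1 : ℕ) :=
      ArithmeticFunction.vonMangoldt_apply_prime p.1.2
    have hd : D (p.1 : ℕ) = ((∑ j, α p j).re / ((p.1 : ℕ) : ℝ) ^ ((i : ℝ) / 2) -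
        MM T (mu i F) (Real.log (p.1 : ℕ))) * Real.log (p.1 : ℕ) := by
      simp only [hD]
      rw [hv, th_good p]
    rw [hd]
  simp_rw [h1]
  set B : ℝ := ∑ p ∈ N.primeFactors, Real.log p with hB
  have hB0 : 0 ≤ B := Finset.sum_nonneg fun p hp => Real.log_nonneg (by
    exact_mod_cast (Nat.prime_of_mem_primeFactors hp).one_lt.le)
  have h2 : ∀ x : ℝ, |(∑ n ∈ Finset.Icc 1 ⌊x⌋₊, if IsGood N n then D n else 0) -
      ∑ n ∈ Finset.Icc 1 ⌊x⌋₊, D n| ≤ K * ((Chebyshev.psi x - Chebyshev.theta x) + B) := by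
    intro x
    rw [← Finset.sum_sub_distrib]
    have h3 : ∀ n ∈ Finset.Icc 1 ⌊x⌋₊, |(if IsGood N n then D n else 0) - D n| ≤
        K * ((ArithmeticFunction.vonMangoldt n - if n.Prime then Real.log n else 0) +
          if n ∈ N.primeFactors then Real.log n else 0) := by
      intro n _
      by_cases hp : n.Prime
      · rw [if_pos hp, ArithmeticFunction.vonMangoldt_apply_prime hp, sub_self, zero_add]
        by_cases hd : n ∣ N
        · rw [if_neg fun h : IsGood N n => h.2 hd, if_pos (Nat.mem_primeFactors.2 ⟨hp, hd, hN.ne'⟩),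
            zero_sub, abs_neg]
          have := hDle n
          rwa [ArithmeticFunction.vonMangoldt_apply_prime hp] at this
        · rw [if_pos ⟨hp, hd⟩, sub_self, abs_zero,
            if_neg fun h => hd (Nat.dvd_of_mem_primeFactors h), mul_zero]
      · rw [if_neg fun h : IsGood N n => hp h.1, if_neg hp,
          if_neg fun h => hp (Nat.prime_of_mem_primeFactors h), zero_sub, abs_neg, sub_zero, add_zero]
        exact hDle n
    refine (Finset.abs_sum_le_sum_abs _ _).trans ((Finset.sum_le_sum h3).trans ?_)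
    rw [← Finset.mul_sum, Finset.sum_add_distrib, Finset.sum_sub_distrib]
    refine mul_le_mul_of_nonneg_left (add_le_add (le_of_eq ?_) ?_) hK0
    · unfold Chebyshev.psi Chebyshev.theta
      rw [Finset.sum_filter]
      rfl
    · rw [← Finset.sum_filter, hB]
      refine Finset.sum_le_sum_of_subset_of_nonneg (fun n hn => (Finset.mem_filter.1 hn).2)
        fun n hn _ => Real.log_nonneg ?_
      exact_mod_cast (Nat.prime_of_mem_primeFactors hn).one_lt.le
  have h4 : Tendsto (fun x : ℝ => K * ((Chebyshev.psi x - Chebyshev.theta x) + B) / x) atTop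
      (𝓝 0) := by
    have h5 := (Pool.Agent.Helper923.PNT.psi_div_tendsto).sub
      Pool.Agent.Helper923.PNT.theta_div_tendsto
    have h6 : Tendsto (fun x : ℝ => B / x) atTop (𝓝 0) := tendsto_const_nhds.div_atTop tendsto_id
    have h7 := (h5.add h6).const_mul K
    rw [sub_self, add_zero, mul_zero] at h7
    refine h7.congr fun x => ?_
    ring
  have h8 : Tendsto (fun x : ℝ => ((∑ n ∈ Finset.Icc 1 ⌊x⌋₊, if IsGood N n then D n else 0) -
      ∑ n ∈ Finset.Icc 1 ⌊x⌋₊, D n) / x) atTop (𝓝 0) := by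
    refine squeeze_zero_norm' ?_ h4
    filter_upwards [eventually_gt_atTop 0] with x hx
    rw [norm_div, Real.norm_eq_abs, Real.norm_eq_abs, abs_of_pos hx]
    exact div_le_div_of_nonneg_right (h2 x) hx.le
  have h9 := h8.add (wi E C T hT)
  rw [add_zero] at h9
  refine h9.congr fun x => ?_
  rw [← add_div, sub_add_cancel]

end Pool.Agent.V7H1.ED
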