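import Pool.Agent.V7H1.ED.Pnt

/-!
# The second moment
-/

set_option autoImplicit false

namespace Pool.Agent.V7H1.ED

open Finset Filter Topology Complex ArithmeticFunction
open Pool.Agent.V7H1.HW Pool.Agent.V7H1.SM

lemma sq_summable {θ : ℕ → ℝ} {b : ℝ} (hb : ∀ n, |θ n| ≤ b) {σ : ℝ} (hσ : 1 < σ) :
    HasSum (fun n => LSeries.term (cC fun n => θ n ^ 2) σ n)
      ((∑' n : ℕ, θ n ^ 2 * vonMangoldt n * (n : ℝ) ^ (-σ) : ℝ) : ℂ) := by
  have h1 : ∀ n, |θ n ^ 2| ≤ b ^ 2 := fun n => by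
    rw [abs_pow]
    exact pow_le_pow_left₀ (abs_nonneg _) (hb n) 2
  have h2 := (cC_summable h1 (s := (σ : ℂ)) (by simpa using hσ)).LSeriesHasSum
  have h3 : ∀ n, LSeries.term (cC fun n => θ n ^ 2) σ n =
      ((θ n ^ 2 * vonMangoldt n * (n : ℝ) ^ (-σ) : ℝ) : ℂ) := by
    intro n
    rcases eq_or_ne n 0 with rfl | hn
    · simp [LSeries.term_zero]
    · have h4 := term_eq (cC fun n => θ n ^ 2) hn σ 0
      simp only [ofReal_zero, zero_mul, add_zero, neg_zero, exp_zero, mul_one] at h4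
      rw [h4, cC]
      push_cast
      ring
  rw [ofReal_tsum]
  simp_rw [← h3]
  exact h2.summable.hasSum

lemma second_ge {θ : ℕ → ℝ} {b : ℝ} (hb : ∀ n, |θ n| ≤ b) (μ : ℝ → ℝ) (T : Finset ℝ) {σ : ℝ}
    (hσ : 1 < σ) :
    (2 * ∑ s ∈ T, (μ s : ℂ) * LSeries (cC θ) (σ + s * I) - ∑ s ∈ T, ∑ t ∈ T,
      ((μ s * μ t : ℝ) : ℂ) * LSeries LamC (σ + (s - t : ℝ) * I)).re ≤
        ∑' n : ℕ, θ n ^ 2 * vonMangoldt n * (n : ℝ) ^ (-σ) := by
  have h1 : HasSum (fun n => LSeries.term (cC fun n => θ n ^ 2) σ n -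
      (2 * ∑ s ∈ T, (μ s : ℂ) * LSeries.term (cC θ) (σ + s * I) n - ∑ s ∈ T, ∑ t ∈ T,
      ((μ s * μ t : ℝ) : ℂ) * LSeries.term LamC (σ + (s - t : ℝ) * I) n))
      (((∑' n : ℕ, θ n ^ 2 * vonMangoldt n * (n : ℝ) ^ (-σ) : ℝ) : ℂ) -
      (2 * ∑ s ∈ T, (μ s : ℂ) * LSeries (cC θ) (σ + s * I) - ∑ s ∈ T, ∑ t ∈ T,
      ((μ s * μ t : ℝ) : ℂ) * LSeries LamC (σ + (s - t : ℝ) * I))) := by
    refine (sq_summable hb hσ).sub (HasSum.sub (HasSum.mul_left _ (hasSum_sum fun s _ => ?_))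
      (hasSum_sum fun s _ => hasSum_sum fun t _ => ?_))
    · exact (cC_summable hb (by simpa using hσ)).LSeriesHasSum.mul_left _
    · exact (LamC_summable (by simpa using hσ)).LSeriesHasSum.mul_left _
  have h2 := (Complex.hasSum_re h1).nonneg (fun n => ?_)
  · rw [sub_re, ofReal_re] at h2
    linarith
  rcases eq_or_ne n 0 with rfl | hn
  · simp [LSeries.term_zero]
  set L := Real.log n with hL
  set z : ℂ := ∑ s ∈ T, (μ s : ℂ) * exp (((s * L : ℝ) : ℂ) * I) with hz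
  set r : ℝ := vonMangoldt n * (n : ℝ) ^ (-σ) with hr
  have hr0 : 0 ≤ r := mul_nonneg vonMangoldt_nonneg (by positivity)
  have h3 : LSeries.term (cC fun n => θ n ^ 2) σ n -
      (2 * ∑ s ∈ T, (μ s : ℂ) * LSeries.term (cC θ) (σ + s * I) n - ∑ s ∈ T, ∑ t ∈ T,
      ((μ s * μ t : ℝ) : ℂ) * LSeries.term LamC (σ + (s - t : ℝ) * I) n) =
      (r : ℂ) * ((θ n : ℂ) ^ 2 - (2 * (θ n : ℂ) * (starRingEnd ℂ) z - (starRingEnd ℂ) z * z)) := by
    have h4 := term_eq (cC fun n => θ n ^ 2) hn σ 0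
    simp only [ofReal_zero, zero_mul, add_zero, neg_zero, exp_zero, mul_one] at h4
    have h5 : (2 : ℂ) * ∑ s ∈ T, (μ s : ℂ) * LSeries.term (cC θ) (σ + s * I) n =
        (r : ℂ) * (2 * (θ n : ℂ) * (starRingEnd ℂ) z) := by
      rw [hz, map_sum, Finset.mul_sum, Finset.mul_sum, Finset.mul_sum]
      refine Finset.sum_congr rfl fun s _ => ?_
      rw [term_eq (cC θ) hn, map_mul, conj_ofReal, ← exp_conj, map_mul, conj_ofReal, conj_I, cC,
        hr, ← hL]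
      rw [show ((-(s * L) : ℝ) : ℂ) * I = ((s * L : ℝ) : ℂ) * -I by push_cast; ring]
      push_cast
      ring
    have h6 : ∑ s ∈ T, ∑ t ∈ T, ((μ s * μ t : ℝ) : ℂ) * LSeries.term LamC (σ + (s - t : ℝ) * I) n =
        (r : ℂ) * ((starRingEnd ℂ) z * z) := by
      rw [hz, ← double]
      simp only [Finset.mul_sum]
      refine Finset.sum_congr rfl fun s _ => Finset.sum_congr rfl fun t _ => ?_
      rw [term_eq LamC hn, LamC, hr, ← hL]
      push_cast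
      ring
    rw [h4, h5, h6, cC, hr]
    push_cast
    ring
  rw [h3, re_ofReal_mul]
  refine mul_nonneg hr0 ?_
  have h7 : (starRingEnd ℂ) z * z = ((z.re ^ 2 + z.im ^ 2 : ℝ) : ℂ) := by
    rw [mul_comm, mul_conj, normSq_apply]
    push_cast
    ring
  have h8 : (2 * (θ n : ℂ) * (starRingEnd ℂ) z).re = 2 * θ n * z.re := by
    rw [mul_assoc, show (2 : ℂ) = ((2 : ℝ) : ℂ) by norm_num, re_ofReal_mul, re_ofReal_mul, conj_re]
    ring
  rw [h7, sub_re, sub_re, h8, ofReal_re, ← ofReal_pow, ofReal_re]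
  nlinarith [sq_nonneg (θ n - z.re), sq_nonneg z.im]

/-- **Bessel's inequality** -/
theorem bessel2 {θ : ℕ → ℝ} {b : ℝ} (hb : ∀ n, |θ n| ≤ b) {μ : ℝ → ℝ}
    (hμ : ∀ t : ℝ, Tendsto (fun σ : ℝ => ((σ - 1 : ℝ) : ℂ) * LSeries (cC θ) (σ + t * I))
      (𝓝[>] 1) (𝓝 (μ t))) (T : Finset ℝ) {V : ℝ}
    (hV : ∃ᶠ σ in 𝓝[>] (1 : ℝ), (σ - 1) * ∑' n : ℕ, θ n ^ 2 * vonMangoldt n * (n : ℝ) ^ (-σ) ≤ V) :
    ∑ t ∈ T, μ t ^ 2 ≤ V := by
  have h1 : Tendsto (fun σ : ℝ => ((2 * ∑ s ∈ T, (μ s : ℂ) *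
      (((σ - 1 : ℝ) : ℂ) * LSeries (cC θ) (σ + s * I)) - ∑ s ∈ T, ∑ t ∈ T,
      ((μ s * μ t : ℝ) : ℂ) * (((σ - 1 : ℝ) : ℂ) * LSeries LamC (σ + (s - t : ℝ) * I)))).re)
      (𝓝[>] 1) (𝓝 (2 * ∑ s ∈ T, (μ s : ℂ) * (μ s : ℂ) - ∑ s ∈ T, ∑ t ∈ T,
      ((μ s * μ t : ℝ) : ℂ) * (if s - t = 0 then 1 else 0)).re) := by
    refine (continuous_re.tendsto _).comp (Tendsto.sub (Tendsto.const_mul _ ?_) ?_)
    · exact tendsto_finsetSum _ fun s _ => (hμ s).const_mul _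
    · exact tendsto_finsetSum _ fun s _ => tendsto_finsetSum _ fun t _ =>
        (lam_mean (s - t)).const_mul _
  have h2 : (2 * ∑ s ∈ T, (μ s : ℂ) * (μ s : ℂ) - ∑ s ∈ T, ∑ t ∈ T,
      ((μ s * μ t : ℝ) : ℂ) * (if s - t = 0 then 1 else 0)).re = ∑ t ∈ T, μ t ^ 2 := by
    have h3 : ∑ s ∈ T, ∑ t ∈ T, ((μ s * μ t : ℝ) : ℂ) * (if s - t = 0 then 1 else 0) =
        ((∑ s ∈ T, μ s ^ 2 : ℝ) : ℂ) := by
      push_cast
      refine Finset.sum_congr rfl fun s hs => ?_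
      rw [Finset.sum_eq_single_of_mem s hs]
      · rw [sub_self, if_pos rfl]
        ring
      · intro t _ ht
        rw [if_neg (sub_ne_zero.2 ht.symm), mul_zero]
    have h4 : ∑ s ∈ T, (μ s : ℂ) * (μ s : ℂ) = ((∑ s ∈ T, μ s ^ 2 : ℝ) : ℂ) := by
      push_cast
      exact Finset.sum_congr rfl fun s _ => by ring
    rw [h3, h4, sub_re, show (2 : ℂ) = ((2 : ℝ) : ℂ) by norm_num, re_ofReal_mul, ofReal_re]
    ring
  rw [h2] at h1
  refine le_of_tendsto_of_frequently h1 ?_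
  refine (hV.and_eventually self_mem_nhdsWithin).mono ?_
  rintro σ ⟨h3, h4⟩
  have h5 : (1 : ℝ) < σ := h4
  refine le_trans ?_ h3
  have h6 := mul_le_mul_of_nonneg_left (second_ge hb μ T h5) (sub_nonneg.2 h5.le)
  refine le_trans (le_of_eq ?_) h6
  rw [← re_ofReal_mul]
  congr 1
  rw [mul_sub, Finset.mul_sum, Finset.mul_sum, Finset.mul_sum, Finset.mul_sum]
  congr 1
  · refine Finset.sum_congr rfl fun s _ => ?_
    ring
  · refine Finset.sum_congr rfl fun s _ => ?_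
    rw [Finset.mul_sum]
    refine Finset.sum_congr rfl fun t _ => ?_
    ring

/-- the restriction to the primes -/
noncomputable def pr (θ : ℕ → ℝ) (n : ℕ) : ℝ := if n.Prime then θ n else 0

lemma pr_le {θ : ℕ → ℝ} {b : ℝ} (hb : ∀ n, |θ n| ≤ b) (n : ℕ) : |pr θ n| ≤ b := by
  rw [pr]
  split_ifs
  · exact hb n
  · rw [abs_zero]
    exact (abs_nonneg _).trans (hb 0)

lemma np_summable : Summable fun n : ℕ => (if n.Prime then 0 else vonMangoldt n) / (n : ℝ) := by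
  have h := ArithmeticFunction.vonMangoldt.summable_residueClass_non_primes_div (1 : ZMod 1)
  refine h.congr fun n => ?_
  congr 1
  split_ifs
  · rfl
  · unfold ArithmeticFunction.vonMangoldt.residueClass
    rw [Set.indicator_of_mem]
    exact Subsingleton.elim _ _

lemma pr_mean {θ : ℕ → ℝ} {b : ℝ} (hb : ∀ n, |θ n| ≤ b) {μ : ℝ → ℝ}
    (hμ : ∀ t : ℝ, Tendsto (fun σ : ℝ => ((σ - 1 : ℝ) : ℂ) * LSeries (cC θ) (σ + t * I))
      (𝓝[>] 1) (𝓝 (μ t))) (t : ℝ) :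
    Tendsto (fun σ : ℝ => ((σ - 1 : ℝ) : ℂ) * LSeries (cC (pr θ)) (σ + t * I)) (𝓝[>] 1)
      (𝓝 (μ t)) := by
  set C : ℝ := ∑' n : ℕ, b * ((if n.Prime then 0 else vonMangoldt n) / (n : ℝ)) with hC
  have h1 : ∀ σ : ℝ, 1 < σ → ‖LSeries (cC θ) (σ + t * I) - LSeries (cC (pr θ)) (σ + t * I)‖ ≤ C := by
    intro σ hσ
    have h2 := (cC_summable hb (s := σ + t * I) (by simpa using hσ)).LSeriesHasSum.sub
      (cC_summable (pr_le hb) (s := σ + t * I) (by simpa using hσ)).LSeriesHasSum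
    rw [← h2.tsum_eq]
    refine tsum_of_norm_bounded ((np_summable.mul_left b).hasSum) fun n => ?_
    rcases eq_or_ne n 0 with rfl | hn
    · simp [LSeries.term_zero]
    · have hn1 : (1 : ℝ) ≤ n := by exact_mod_cast Nat.one_le_iff_ne_zero.2 hn
      rw [term_eq _ hn, Pi.sub_apply, cC, cC, pr]
      split_ifs with hp
      · simp
      · rw [norm_mul, norm_mul, Complex.norm_exp_ofReal_mul_I, mul_one,
          ← ofReal_sub, norm_real, norm_real, Real.norm_eq_abs, Real.norm_eq_abs,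
          abs_of_nonneg (by positivity : (0 : ℝ) ≤ (n : ℝ) ^ (-σ)), zero_mul, sub_zero, abs_mul,
          abs_of_nonneg (vonMangoldt_nonneg (n := n)), mul_assoc]
        have h3 : (n : ℝ) ^ (-σ) ≤ (n : ℝ)⁻¹ := by
          rw [← Real.rpow_neg_one]
          exact Real.rpow_le_rpow_of_exponent_le hn1 (by linarith)
        rw [div_eq_mul_inv]
        have h4 : (0 : ℝ) ≤ vonMangoldt n := vonMangoldt_nonneg
        have h5 : 0 ≤ b := (abs_nonneg _).trans (hb 0)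
        exact mul_le_mul (hb n) (mul_le_mul_of_nonneg_left h3 h4) (by positivity) h5
  have h3 : Tendsto (fun σ : ℝ => ((σ - 1 : ℝ) : ℂ) *
      (LSeries (cC θ) (σ + t * I) - LSeries (cC (pr θ)) (σ + t * I))) (𝓝[>] 1) (𝓝 0) := by
    have h4 : Tendsto (fun σ : ℝ => ‖((σ - 1 : ℝ) : ℂ)‖ * C) (𝓝[>] 1) (𝓝 0) := by
      have := (sub_one_tendsto.norm).mul_const C
      rwa [norm_zero, zero_mul] at this
    refine squeeze_zero_norm' ?_ h4
    filter_upwards [self_mem_nhdsWithin] with σ hσ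
    rw [norm_mul]
    exact mul_le_mul_of_nonneg_left (h1 σ hσ) (norm_nonneg _)
  have h5 := (hμ t).sub h3
  rw [sub_zero] at h5
  refine h5.congr fun σ => ?_
  ring

variable {N i b : ℕ} {α : Good N → Fin b → ℂ} {F : ℂ → ℂ}

lemma pr_tsum (σ : ℝ) : ∑' n : ℕ, pr (th i α) n ^ 2 * vonMangoldt n * (n : ℝ) ^ (-σ) =
    ∑' p : Good N, ((∑ j, α p j).re / ((p.1 : ℕ) : ℝ) ^ ((i : ℝ) / 2)) ^ 2 * Real.log (p.1 : ℕ) *
      ((p.1 : ℕ) : ℝ) ^ (-σ) := by
  have hinj : Function.Injective fun p : Good N => (p.1 : ℕ) := fun p q h =>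
    Subtype.ext (Subtype.ext h)
  have h2 : Function.support (fun n : ℕ => pr (th i α) n ^ 2 * vonMangoldt n * (n : ℝ) ^ (-σ)) ⊆
      Set.range fun p : Good N => (p.1 : ℕ) := by
    intro n hn
    by_contra h
    apply hn
    have h3 : pr (th i α) n = 0 := by
      rw [pr]
      split_ifs with hp
      · refine th_of_not ?_
        rintro ⟨x, hx⟩
        apply h
        refine ⟨x.1, ?_⟩
        have h4 : (x.1.1 : ℕ) ∣ n := hx ▸ dvd_pow_self _ (Nat.succ_ne_zero _)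
        exact (Nat.prime_dvd_prime_iff_eq x.1.1.2 hp).1 h4
      · rfl
    simp only
    rw [h3]
    ring
  rw [← hinj.tsum_eq h2]
  refine tsum_congr fun p => ?_
  have hv : vonMangoldt (p.1 : ℕ) = Real.log (p.1 : ℕ) := vonMangoldt_apply_prime p.1.2
  rw [hv, pr, if_pos p.1.2, th_good p]

/-- **the orders and the second moment** -/
theorem second (E : Frob N i b α) (C : EdgeCont i α F) (T : Finset ℝ) {V : ℝ}
    (hV : ∃ᶠ σ in 𝓝[>] (1 : ℝ), (σ - 1) * ∑' p : Good N,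
      ((∑ j, α p j).re / ((p.1 : ℕ) : ℝ) ^ ((i : ℝ) / 2)) ^ 2 * Real.log (p.1 : ℕ) *
        ((p.1 : ℕ) : ℝ) ^ (-σ) ≤ V) :
    ∑ t ∈ T, (mu i F t : ℝ) ^ 2 ≤ V := by
  refine bessel2 (pr_le (th_le E)) (μ := fun t => (mu i F t : ℝ))
    (pr_mean (th_le E) (mean_mu E C)) T ?_
  simp_rw [pr_tsum]
  exact hV

end Pool.Agent.V7H1.ED
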